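import Pool.Agent.H341Q.VMadC

set_option autoImplicit false

/-!
# Borel almost disjoint families of vector subspaces that reach all tame subspaces

`segs h v` is the number of `h`-segments of the vector `v`, that is, the number of elements `i` of
the support of `v` such that `h i < j` for every larger element `j` of the support. The subspace
`X` is `Tame h k` if it contains, arbitrarily far out, nonzero vectors with at most `k` segments.
-/

open MeasureTheory Pool.Agent.H341Q.VMad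

namespace Pool.Agent.Results.MP_5897b0_lc.TameSubspaces

theorem result (F : Type) [Field F] [Countable F] :
    (∀ h : ℕ → ℕ, ∃ 𝒜 : Set (Submodule F (ℕ →₀ F)),
      MeasurableSet[borel ((ℕ →₀ F) → Bool)] {χ | ∃ A ∈ 𝒜, ∀ v, χ v = true ↔ v ∈ A} ∧
      𝒜.Infinite ∧
      (∀ A ∈ 𝒜, ¬ FiniteDimensional F A) ∧
      (∀ A ∈ 𝒜, ∀ B ∈ 𝒜, A ≠ B → FiniteDimensional F ↥(A ⊓ B)) ∧
      (∀ (k : ℕ) (X : Submodule F (ℕ →₀ F)), Tame h k X → ∃ A ∈ 𝒜, A ≤ X)) ∧
    (∀ X : ℕ → Submodule F (ℕ →₀ F), (∀ n, ¬ FiniteDimensional F (X n)) →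
      ∃ h : ℕ → ℕ, ∀ n, Tame h 1 (X n)) ∧
    (∀ (h h' : ℕ → ℕ) (k : ℕ) (X : Submodule F (ℕ →₀ F)),
      (∀ᶠ i in Filter.atTop, h i ≤ h' i) → Tame h k X → Tame h' k X) ∧
    (∀ (h : ℕ → ℕ) (P : Set ℕ), P.Infinite → Tame h 1 (Finsupp.supported F F P)) ∧
    (∀ (h : ℕ → ℕ) (k : ℕ) (X : Submodule F (ℕ →₀ F)),
      (∀ m, ∃ v ∈ X, v ≠ 0 ∧ (∀ i ∈ v.support, m ≤ i) ∧ v.support.card ≤ k) → Tame h k X) :=
  ⟨fun h => main h, fun X hX => exists_tame X hX, fun _ _ _ _ hh hX => hX.mono hh,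
    fun h _ hP => tame_coord h hP, fun h k _ hX => tame_bounded h k hX⟩

end Pool.Agent.Results.MP_5897b0_lc.TameSubspaces
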